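import Mathlib

set_option autoImplicit false

namespace Pool.Agent.Results.MP_da3f29_al.NoStructure

/-!
# A connected unipotent group with no rational structure on the regular module of `U_r`

Let `q = p ^ r` with `r ≥ 1`, and let `U` be affine 3-space with the group law
`(a, b, c) (a', b', c') = (a + a', b + b', c + c' + a b' ^ q)`.  It is a connected (smooth)
unipotent group defined over `𝔽_q` (even over `𝔽_p`), and `U_r` is commutative.  We show that there
is no rational `U`-module `M` at all whose restriction to `U_r` is the regular module `k[U_r]`.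

Proof.  Suppose `M` is one.  The divided power operator `Y` of degree `q` of the first coordinate
subgroup commutes with the action of the distribution algebra of `U_r`, and `M` is a regular module
for this commutative algebra, so `Y` agrees on `M` with some element `g` of it.  Conjugating by the
elements `(0, b, 0)`, which act on `U` by `(a, b', c) ↦ (a, b', c + a b ^ q)`, and comparing the
coefficients of `t ^ (q - 1)`, `t = b ^ q`, gives a nonzero element of the distribution algebra of
`U_r` acting as zero on `M`: a contradiction.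
-/

open TensorProduct Coalgebra MvPolynomial

universe u v w

lemma add_pow_q {F : Type*} [Field F] (p r : ℕ) [Fact p.Prime] [CharP F p]
    {S : Type*} [CommRing S] [Algebra F S] (a b : S) :
    (a + b) ^ (p ^ r) = a ^ (p ^ r) + b ^ (p ^ r) := by
  rcases subsingleton_or_nontrivial S with h | h
  · exact Subsingleton.elim _ _
  · have : CharP S p := charP_of_injective_algebraMap (algebraMap F S).injective p
    exact add_pow_char_pow a b p r

lemma neg_pow_q {F : Type*} [Field F] (p r : ℕ) [Fact p.Prime] [CharP F p]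
    {S : Type*} [CommRing S] [Algebra F S] (a : S) :
    (-a) ^ (p ^ r) = - a ^ (p ^ r) := by
  have h := add_pow_q (F := F) p r a (-a)
  rw [add_neg_cancel, zero_pow (pow_ne_zero _ (Fact.out : p.Prime).ne_zero)] at h
  exact (neg_eq_of_add_eq_zero_right h.symm).symm

section defs

variable (k : Type u) (H : Type v) (M : Type w) [Field k] [CommRing H] [Bialgebra k H]
  [AddCommGroup M] [Module k M]

/-- A (right) comodule over `H`, i.e. a rational representation on `M` of the affine group
(monoid) scheme with coordinate ring `H`. -/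
structure Comod where
  /-- the coaction -/
  coact : M →ₗ[k] M ⊗[k] H
  coassoc : (TensorProduct.assoc k M H H).toLinearMap ∘ₗ coact.rTensor H ∘ₗ coact =
    (comul (R := k) (A := H)).lTensor M ∘ₗ coact
  counit_coact : (TensorProduct.rid k M).toLinearMap ∘ₗ
    (counit (R := k) (A := H)).lTensor M ∘ₗ coact = LinearMap.id

variable {k H M}

variable (k H) in
/-- The ideal of `H = k[U]` generated by all `x ^ q` with `ε x = 0`.  For `q = p ^ r` it is the
ideal of the `r`-th Frobenius kernel `U_r` of `U`, so `k[U_r]` is the quotient of `H` by it. -/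
def frobIdeal (q : ℕ) : Ideal H := Ideal.span {y | ∃ x : H, counit (R := k) x = 0 ∧ y = x ^ q}

/-- The quotient map `H → H ⧸ I` as a `k`-linear map. -/
def mkL (I : Ideal H) : H →ₗ[k] H ⧸ I := (Ideal.Quotient.mkₐ k I).toLinearMap

/-- The restriction of the rational `U`-module `M` to the kernel `U_r` is isomorphic to `k[U_r]`
with its regular action: there is a `k`-linear bijection `φ : M → k[U_r] = H ⧸ I` which takes the
coaction of `k[U_r]` on `M` to the comultiplication of `k[U_r]`. -/
def RestrictsToRegular (q : ℕ) (ρ : Comod k H M) : Prop :=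
  ∃ φ : M ≃ₗ[k] H ⧸ frobIdeal k H q, ∀ (m : M) (h : H), φ m = Ideal.Quotient.mk _ h →
    TensorProduct.map φ.toLinearMap (mkL (frobIdeal k H q)) (ρ.coact m) =
      TensorProduct.map (mkL (frobIdeal k H q)) (mkL (frobIdeal k H q)) (comul (R := k) h)

end defs

section ops

variable {k : Type u} {H : Type v} {M : Type w} [Field k] [CommRing H] [Bialgebra k H]
  [AddCommGroup M] [Module k M] (ρ : Comod k H M)

/-- The operator `m ↦ (id ⊗ f) (coact m)` of a functional `f` on `H`. -/
noncomputable def op (f : H →ₗ[k] k) : M →ₗ[k] M :=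
  (TensorProduct.rid k M).toLinearMap ∘ₗ f.lTensor M ∘ₗ ρ.coact

/-- The convolution product of functionals. -/
noncomputable def conv (f g : H →ₗ[k] k) : H →ₗ[k] k :=
  (TensorProduct.lid k k).toLinearMap ∘ₗ TensorProduct.map f g ∘ₗ comul

lemma op_apply (f : H →ₗ[k] k) (m : M) :
    op ρ f m = TensorProduct.rid k M (f.lTensor M (ρ.coact m)) := rfl

lemma conv_apply (f g : H →ₗ[k] k) (h : H) :
    conv f g h = TensorProduct.lid k k (TensorProduct.map f g (comul (R := k) h)) := rfl

lemma op_conv (f g : H →ₗ[k] k) (m : M) : op ρ (conv f g) m = op ρ f (op ρ g m) := by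
  set Φ : M ⊗[k] (H ⊗[k] H) →ₗ[k] M := (TensorProduct.rid k M).toLinearMap ∘ₗ
    ((TensorProduct.lid k k).toLinearMap ∘ₗ TensorProduct.map f g).lTensor M with hΦ
  have h1 : ∀ z : M ⊗[k] H, TensorProduct.rid k M ((conv f g).lTensor M z) =
      Φ ((comul (R := k) (A := H)).lTensor M z) := by
    intro z
    induction z with
    | zero => simp
    | add x y hx hy => rw [map_add, map_add, hx, hy, map_add, map_add]
    | tmul x y => simp [hΦ, conv]
  have h2 : ∀ (h : H) (w : M ⊗[k] H), Φ (TensorProduct.assoc k M H H (w ⊗ₜ h)) =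
      g h • TensorProduct.rid k M (f.lTensor M w) := by
    intro h w
    induction w with
    | zero => simp
    | add x y hx hy => rw [add_tmul, map_add, map_add, hx, hy, map_add, map_add, smul_add]
    | tmul x y => simp [hΦ, smul_smul, mul_comm]
  have h3 : ∀ z : M ⊗[k] H, Φ (TensorProduct.assoc k M H H (ρ.coact.rTensor H z)) =
      op ρ f (TensorProduct.rid k M (g.lTensor M z)) := by
    intro z
    induction z with
    | zero => simp
    | add x y hx hy => rw [map_add, map_add, map_add, hx, hy, map_add, map_add, map_add]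
    | tmul x y => 
      rw [LinearMap.rTensor_tmul, h2]
      simp [op_apply]
  have h4 := LinearMap.congr_fun ρ.coassoc m
  simp only [LinearMap.comp_apply, LinearEquiv.coe_coe] at h4
  rw [op_apply, h1, ← h4, h3, ← op_apply]


/-- Left translation by a point. -/
noncomputable def Lt (u : H →ₐ[k] k) : H →ₐ[k] H :=
  (Algebra.TensorProduct.lid k H).toAlgHom.comp
    ((Algebra.TensorProduct.map u (AlgHom.id k H)).comp (Bialgebra.comulAlgHom k H))

/-- Right translation by a point. -/
noncomputable def Rt (u : H →ₐ[k] k) : H →ₐ[k] H :=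
  (Algebra.TensorProduct.rid k k H).toAlgHom.comp
    ((Algebra.TensorProduct.map (AlgHom.id k H) u).comp (Bialgebra.comulAlgHom k H))

lemma conv_left (u : H →ₐ[k] k) (f : H →ₗ[k] k) :
    conv u.toLinearMap f = f ∘ₗ (Lt u).toLinearMap := by
  ext h
  rw [conv_apply, LinearMap.comp_apply, Lt]
  simp only [AlgHom.toLinearMap_apply, AlgHom.comp_apply, Bialgebra.comulAlgHom_apply]
  induction comul (R := k) h with
  | zero => simp
  | add x y hx hy => rw [map_add, map_add, map_add, map_add, map_add, hx, hy]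
  | tmul x y => simp

lemma conv_right (u : H →ₐ[k] k) (f : H →ₗ[k] k) :
    conv f u.toLinearMap = f ∘ₗ (Rt u).toLinearMap := by
  ext h
  rw [conv_apply, LinearMap.comp_apply, Rt]
  simp only [AlgHom.toLinearMap_apply, AlgHom.comp_apply, Bialgebra.comulAlgHom_apply]
  induction comul (R := k) h with
  | zero => simp
  | add x y hx hy => rw [map_add, map_add, map_add, map_add, map_add, hx, hy]
  | tmul x y => simp [mul_comm]

/-- If `T f = 0` then `T (f ∘ L_u ∘ R_v) = 0`. -/
lemma op_translate {f : H →ₗ[k] k} (hf : op ρ f = 0) (u v : H →ₐ[k] k) :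
    op ρ (f ∘ₗ ((Lt u).comp (Rt v)).toLinearMap) = 0 := by
  have h : f ∘ₗ ((Lt u).comp (Rt v)).toLinearMap =
      conv (conv u.toLinearMap f) v.toLinearMap := by
    rw [conv_left, conv_right]
    rfl
  ext m
  rw [h, op_conv, op_conv, hf]
  simp

/-- A criterion for two functionals to commute under convolution. -/
lemma conv_comm_of {P Q : Type*} [CommRing P] [Algebra k P] [CommRing Q] [Algebra k Q]
    (a : H →ₐ[k] P) (b : H →ₐ[k] Q)
    (hab : (Algebra.TensorProduct.map a b).comp (Bialgebra.comulAlgHom k H) =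
      ((Algebra.TensorProduct.comm k Q P).toAlgHom.comp
        (Algebra.TensorProduct.map b a)).comp (Bialgebra.comulAlgHom k H))
    (f : P →ₗ[k] k) (g : Q →ₗ[k] k) :
    conv (f ∘ₗ a.toLinearMap) (g ∘ₗ b.toLinearMap) =
      conv (g ∘ₗ b.toLinearMap) (f ∘ₗ a.toLinearMap) := by
  ext h
  have h1 : ∀ z : H ⊗[k] H, TensorProduct.lid k k
      (TensorProduct.map (f ∘ₗ a.toLinearMap) (g ∘ₗ b.toLinearMap) z) =
      TensorProduct.lid k k (TensorProduct.map f g (Algebra.TensorProduct.map a b z)) := by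
    intro z
    induction z with
    | zero => simp
    | add x y hx hy => rw [map_add, map_add, map_add, map_add, map_add, hx, hy]
    | tmul x y => simp
  have h2 : ∀ z : H ⊗[k] H, TensorProduct.lid k k
      (TensorProduct.map (g ∘ₗ b.toLinearMap) (f ∘ₗ a.toLinearMap) z) =
      TensorProduct.lid k k (TensorProduct.map f g
        (Algebra.TensorProduct.comm k Q P (Algebra.TensorProduct.map b a z))) := by
    intro z
    induction z with
    | zero => simp
    | add x y hx hy => 
      rw [map_add, map_add, map_add, map_add, map_add, map_add, hx, hy]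
    | tmul x y => simp [mul_comm]
  rw [conv_apply, conv_apply, h1, h2]
  have h3 := DFunLike.congr_fun hab h
  simp only [AlgHom.comp_apply, Bialgebra.comulAlgHom_apply] at h3
  rw [h3]
  rfl

end ops

section regular

variable {k : Type u} {H : Type v} {M : Type w} [Field k] [CommRing H] [Bialgebra k H]
  [AddCommGroup M] [Module k M] (ρ : Comod k H M) (q : ℕ) 

lemma counit_kills (hq : q ≠ 0) : ∀ x ∈ frobIdeal k H q, Bialgebra.counitAlgHom k H x = 0 := by
  intro x hx
  have : frobIdeal k H q ≤ RingHom.ker (Bialgebra.counitAlgHom k H) := by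
    refine Ideal.span_le.2 ?_
    rintro _ ⟨x, hx, rfl⟩
    simp only [SetLike.mem_coe, RingHom.mem_ker, map_pow, Bialgebra.counitAlgHom_apply, hx]
    exact zero_pow hq
  exact this hx

/-- The counit of the quotient. -/
noncomputable def ebar (hq : q ≠ 0) : (H ⧸ frobIdeal k H q) →ₐ[k] k :=
  Ideal.Quotient.liftₐ _ (Bialgebra.counitAlgHom k H) (counit_kills q hq)

lemma ebar_mk (hq : q ≠ 0) (h : H) :
    ebar (k := k) q hq (Ideal.Quotient.mk _ h) = counit (R := k) h := rfl

variable {ρ q}
variable (φ : M ≃ₗ[k] H ⧸ frobIdeal k H q) (hφ : ∀ (m : M) (h : H), φ m = Ideal.Quotient.mk _ h →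
    TensorProduct.map φ.toLinearMap (mkL (frobIdeal k H q)) (ρ.coact m) =
      TensorProduct.map (mkL (frobIdeal k H q)) (mkL (frobIdeal k H q)) (comul (R := k) h))

include hφ in
lemma phi_op (f : (H ⧸ frobIdeal k H q) →ₗ[k] k) (m : M) (h : H)
    (hm : φ m = Ideal.Quotient.mk _ h) :
    φ (op ρ (f ∘ₗ mkL _) m) = 
      Ideal.Quotient.mk _ (TensorProduct.rid k H ((f ∘ₗ mkL _).lTensor H (comul (R := k) h))) := by
  have h1 : ∀ z : M ⊗[k] H, φ (TensorProduct.rid k M ((f ∘ₗ mkL _).lTensor M z)) =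
      TensorProduct.rid k _ (f.lTensor _
        (TensorProduct.map φ.toLinearMap (mkL (frobIdeal k H q)) z)) := by
    intro z
    induction z with
    | zero => simp
    | add x y hx hy => simp only [map_add, hx, hy]
    | tmul x y => simp
  have h2 : ∀ z : H ⊗[k] H,
      Ideal.Quotient.mk (frobIdeal k H q) (TensorProduct.rid k H ((f ∘ₗ mkL _).lTensor H z)) =
      TensorProduct.rid k _ (f.lTensor _
        (TensorProduct.map (mkL (frobIdeal k H q)) (mkL (frobIdeal k H q)) z)) := by
    intro z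
    induction z with
    | zero => simp
    | add x y hx hy => simp only [map_add, hx, hy]
    | tmul x y => 
      simp only [LinearMap.lTensor_tmul, TensorProduct.rid_tmul, TensorProduct.map_tmul,
        LinearMap.comp_apply]
      exact map_smul (Ideal.Quotient.mkₐ k (frobIdeal k H q)) _ _
  rw [op_apply, h1, hφ m h hm, h2]

include hφ in
lemma eps_phi_op (hq : q ≠ 0) (f : (H ⧸ frobIdeal k H q) →ₗ[k] k) (m : M) (h : H)
    (hm : φ m = Ideal.Quotient.mk _ h) :
    ebar q hq (φ (op ρ (f ∘ₗ mkL _) m)) = f (Ideal.Quotient.mk _ h) := by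
  rw [phi_op φ hφ f m h hm, ebar_mk]
  have h1 : ∀ z : H ⊗[k] H,
      counit (R := k) (TensorProduct.rid k H ((f ∘ₗ mkL _).lTensor H z)) =
      (f ∘ₗ mkL _) (TensorProduct.lid k H ((counit (R := k) (A := H)).rTensor H z)) := by
    intro z
    induction z with
    | zero => simp
    | add x y hx hy => simp only [map_add, hx, hy]
    | tmul x y => simp [mul_comm]
  rw [h1, Coalgebra.rTensor_counit_comul]
  simp
  rfl

include hφ in
/-- An endomorphism commuting with all operators of the kernel comes from a functional. -/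
lemma centralizer (hq : q ≠ 0)
    (hcomm : ∀ f g : (H ⧸ frobIdeal k H q) →ₗ[k] k,
      conv (f ∘ₗ mkL _) (g ∘ₗ mkL _) = conv (g ∘ₗ mkL _) (f ∘ₗ mkL _))
    (Y : M →ₗ[k] M) (hY : ∀ (f : (H ⧸ frobIdeal k H q) →ₗ[k] k) (m : M),
      Y (op ρ (f ∘ₗ mkL _) m) = op ρ (f ∘ₗ mkL _) (Y m)) :
    ∃ g : (H ⧸ frobIdeal k H q) →ₗ[k] k, Y = op ρ (g ∘ₗ mkL _) := by
  refine ⟨(ebar q hq).toLinearMap ∘ₗ φ.toLinearMap ∘ₗ Y ∘ₗ φ.symm.toLinearMap, ?_⟩
  set g : (H ⧸ frobIdeal k H q) →ₗ[k] k :=
    (ebar q hq).toLinearMap ∘ₗ φ.toLinearMap ∘ₗ Y ∘ₗ φ.symm.toLinearMap with hg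
  have hfx : ∀ (f : (H ⧸ frobIdeal k H q) →ₗ[k] k) (m : M),
      f (φ m) = ebar q hq (φ (op ρ (f ∘ₗ mkL _) m)) := by
    intro f m
    obtain ⟨h, hh⟩ := Ideal.Quotient.mk_surjective (φ m)
    rw [eps_phi_op φ hφ hq f m h hh.symm, hh]
  ext m
  apply φ.injective
  rw [← sub_eq_zero, ← Module.forall_dual_apply_eq_zero_iff k]
  intro f
  rw [map_sub, sub_eq_zero]
  obtain ⟨h, hh⟩ := Ideal.Quotient.mk_surjective (φ m)
  rw [hfx f (Y m), ← hY f m]
  have h1 : ebar q hq (φ (Y (op ρ (f ∘ₗ mkL _) m))) = g (φ (op ρ (f ∘ₗ mkL _) m)) := by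
    simp [hg]
  have h2 : ∀ (f g : (H ⧸ frobIdeal k H q) →ₗ[k] k), g (φ (op ρ (f ∘ₗ mkL _) m)) =
      conv (g ∘ₗ mkL _) (f ∘ₗ mkL _) h := by
    intro f g
    rw [phi_op φ hφ f m h hh.symm, conv_apply]
    have : ∀ z : H ⊗[k] H, g (Ideal.Quotient.mk (frobIdeal k H q)
        (TensorProduct.rid k H ((f ∘ₗ mkL _).lTensor H z))) =
        TensorProduct.lid k k (TensorProduct.map (g ∘ₗ mkL _) (f ∘ₗ mkL _) z) := by
      intro z
      induction z with
      | zero => simp
      | add x y hx hy => simp only [map_add, hx, hy]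
      | tmul x y => 
        simp only [LinearMap.lTensor_tmul, TensorProduct.rid_tmul, TensorProduct.map_tmul,
          LinearMap.comp_apply, TensorProduct.lid_tmul, smul_eq_mul]
        have := map_smul (Ideal.Quotient.mkₐ k (frobIdeal k H q)) (f (mkL (k := k) _ y)) x
        change g (Ideal.Quotient.mkₐ k (frobIdeal k H q) (f (mkL (k := k) _ y) • x)) = _
        rw [this, map_smul, smul_eq_mul, mul_comm]
        rfl
    rw [this]
  rw [h1, h2, h2, hcomm]

end regular


section specific

/-- `H` is a polynomial ring in three variables `A, B, C` with the comultiplication of our group: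
`A`, `B` are primitive and `Δ C = C ⊗ 1 + 1 ⊗ C + A ⊗ B ^ q`. -/
structure IsHeis {k : Type u} {H : Type v} [Field k] [CommRing H] [Bialgebra k H] (q : ℕ)
    (e : MvPolynomial (Fin 3) k ≃ₐ[k] H) : Prop where
  counit_x : ∀ i, counit (R := k) (e (X i)) = 0
  comul0 : comul (R := k) (e (X 0)) = e (X 0) ⊗ₜ[k] 1 + 1 ⊗ₜ[k] e (X 0)
  comul1 : comul (R := k) (e (X 1)) = e (X 1) ⊗ₜ[k] 1 + 1 ⊗ₜ[k] e (X 1)
  comul2 : comul (R := k) (e (X 2)) = e (X 2) ⊗ₜ[k] 1 + 1 ⊗ₜ[k] e (X 2) +
    e (X 0) ⊗ₜ[k] (e (X 1) ^ q)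

variable {k : Type u} {H : Type v} {M : Type w} [Field k] [CommRing H] [Bialgebra k H]
  [AddCommGroup M] [Module k M]

/-- Algebra maps out of `H`. -/
noncomputable def lft (e : MvPolynomial (Fin 3) k ≃ₐ[k] H) {S : Type*} [CommRing S] [Algebra k S]
    (v : Fin 3 → S) : H →ₐ[k] S :=
  (aeval v).comp e.symm.toAlgHom

lemma lft_e (e : MvPolynomial (Fin 3) k ≃ₐ[k] H) {S : Type*} [CommRing S] [Algebra k S]
    (v : Fin 3 → S) (i : Fin 3) : lft e v (e (X i)) = v i := by
  simp [lft]

lemma hext (e : MvPolynomial (Fin 3) k ≃ₐ[k] H) {S : Type*} [CommRing S] [Algebra k S]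
    {f g : H →ₐ[k] S} (h0 : f (e (X 0)) = g (e (X 0))) (h1 : f (e (X 1)) = g (e (X 1)))
    (h2 : f (e (X 2)) = g (e (X 2))) : f = g := by
  have h : f.comp e.toAlgHom = g.comp e.toAlgHom := by
    refine MvPolynomial.algHom_ext (fun i => ?_)
    fin_cases i
    exacts [h0, h1, h2]
  ext x
  obtain ⟨y, rfl⟩ := e.surjective x
  exact DFunLike.congr_fun h y

lemma extraction [Infinite k] (w : M ⊗[k] Polynomial k)
    (h : ∀ t : k, TensorProduct.rid k M
      ((Polynomial.aeval t : Polynomial k →ₐ[k] k).toLinearMap.lTensor M w) = 0) (n : ℕ) :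
    TensorProduct.rid k M ((Polynomial.lcoeff k n).lTensor M w) = 0 := by
  rw [← Module.forall_dual_apply_eq_zero_iff k]
  intro ψ
  have key : ∀ (l : Polynomial k →ₗ[k] k) (w : M ⊗[k] Polynomial k),
      ψ (TensorProduct.rid k M (l.lTensor M w)) =
        l (TensorProduct.lid k _ (ψ.rTensor _ w)) := by
    intro l w
    induction w with
    | zero => simp
    | add x y hx hy => simp only [map_add, hx, hy]
    | tmul x y => simp [mul_comm]
  have h0 : TensorProduct.lid k _ (ψ.rTensor _ w) = 0 := by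
    apply Polynomial.funext
    intro t
    have := key (Polynomial.aeval t : Polynomial k →ₐ[k] k).toLinearMap w
    rw [h t, map_zero] at this
    simpa [Polynomial.aeval_def] using this.symm
  rw [key, h0, map_zero]

lemma coeff_pow_mul (p r : ℕ) [Fact p.Prime] [CharP k p] (n : Fin 3 →₀ ℕ)
    (hn : ∀ i, n i < p ^ r) (x y : MvPolynomial (Fin 3) k) :
    coeff n (x ^ (p ^ r) * y) = (constantCoeff x) ^ (p ^ r) * coeff n y := by
  induction x using MvPolynomial.induction_on' with
  | monomial u a =>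
    rw [monomial_pow, coeff_monomial_mul', constantCoeff_monomial]
    by_cases hu : u = 0
    · simp [hu]
    · have h1 : ¬ (p ^ r • u ≤ n) := by
        intro hle
        apply hu
        ext i
        have h2 := hle i
        have h3 := hn i
        simp only [Finsupp.coe_smul, Pi.smul_apply, smul_eq_mul] at h2
        by_contra h4
        have h5 : 1 ≤ u i := Nat.one_le_iff_ne_zero.2 h4
        nlinarith
      rw [if_neg h1, if_neg hu]
      rw [zero_pow (pow_ne_zero _ (Fact.out : p.Prime).ne_zero), zero_mul]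
  | add x x' hx hx' =>
    rw [add_pow_q (F := k), add_mul, coeff_add, hx, hx', map_add, add_pow_q (F := k)]
    ring


lemma op_sub (ρ : Comod k H M) (f g : H →ₗ[k] k) : op ρ (f - g) = op ρ f - op ρ g := by
  ext m
  simp only [op_apply, LinearMap.lTensor_sub, LinearMap.sub_apply, map_sub]

/-- The action of the coordinate direction `A`. -/
noncomputable def iA (e : MvPolynomial (Fin 3) k ≃ₐ[k] H) : H →ₐ[k] Polynomial k :=
  lft e ![Polynomial.X, 0, 0]

/-- The family of automorphisms `C ↦ C + t A`. -/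
noncomputable def DD (e : MvPolynomial (Fin 3) k ≃ₐ[k] H) : H →ₐ[k] H ⊗[k] Polynomial k :=
  lft e ![e (X 0) ⊗ₜ 1, e (X 1) ⊗ₜ 1, e (X 2) ⊗ₜ 1 + e (X 0) ⊗ₜ Polynomial.X]

/-- The linear map `h ↦ Σ_s f₀ (D_s h) X^s`. -/
noncomputable def theta (e : MvPolynomial (Fin 3) k ≃ₐ[k] H) (f : H →ₗ[k] k) :
    H →ₗ[k] Polynomial k :=
  (TensorProduct.lid k _).toLinearMap ∘ₗ f.rTensor _ ∘ₗ (DD e).toLinearMap

lemma theta_apply (e : MvPolynomial (Fin 3) k ≃ₐ[k] H) (f : H →ₗ[k] k) (h : H) :
    theta e f h = TensorProduct.lid k _ (f.rTensor _ (DD e h)) := rfl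

lemma theta_sub (e : MvPolynomial (Fin 3) k ≃ₐ[k] H) (f g : H →ₗ[k] k) (h : H) :
    theta e (f - g) h = theta e f h - theta e g h := by
  simp only [theta_apply, LinearMap.rTensor_sub, LinearMap.sub_apply, map_sub]

lemma DD_eval {q : ℕ} {e : MvPolynomial (Fin 3) k ≃ₐ[k] H} (he : IsHeis q e) (b : k) :
    (Algebra.TensorProduct.rid k k H).toAlgHom.comp ((Algebra.TensorProduct.map (AlgHom.id k H)
      (Polynomial.aeval (b ^ q) : Polynomial k →ₐ[k] k)).comp (DD e)) =
    (Lt (lft e ![0, -b, 0])).comp (Rt (lft e ![0, b, 0])) := by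
  apply hext e
  · simp [DD, lft_e, Lt, Rt, he.comul0]
  · simp [DD, lft_e, Lt, Rt, he.comul1]
  · simp [DD, lft_e, Lt, Rt, he.comul2, he.comul0]

lemma theta_eval {q : ℕ} {e : MvPolynomial (Fin 3) k ≃ₐ[k] H} (he : IsHeis q e) (b : k) (f : H →ₗ[k] k) :
    (Polynomial.aeval (b ^ q) : Polynomial k →ₐ[k] k).toLinearMap ∘ₗ theta e f =
      f ∘ₗ ((Lt (lft e ![0, -b, 0])).comp (Rt (lft e ![0, b, 0]))).toLinearMap := by
  rw [← DD_eval he]
  ext h
  have h1 : ∀ z : H ⊗[k] Polynomial k, (Polynomial.aeval (b ^ q) : Polynomial k →ₐ[k] k)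
      (TensorProduct.lid k _ (f.rTensor _ z)) =
      f (Algebra.TensorProduct.rid k k H (Algebra.TensorProduct.map (AlgHom.id k H)
        (Polynomial.aeval (b ^ q) : Polynomial k →ₐ[k] k) z)) := by
    intro z
    induction z with
    | zero => simp
    | add x y hx hy => simp only [map_add, hx, hy]
    | tmul x y => simp [mul_comm]
  exact h1 (DD e h)

lemma op_theta [IsAlgClosed k] {q : ℕ} {e : MvPolynomial (Fin 3) k ≃ₐ[k] H} (he : IsHeis q e)
    (hq : q ≠ 0) (ρ : Comod k H M) {f : H →ₗ[k] k} (hf : op ρ f = 0) (n : ℕ) :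
    op ρ (Polynomial.lcoeff k n ∘ₗ theta e f) = 0 := by
  have : Infinite k := IsAlgClosed.instInfinite
  ext m
  have h := extraction ((theta e f).lTensor M (ρ.coact m)) (fun t => by
    obtain ⟨b, rfl⟩ := IsAlgClosed.exists_pow_nat_eq t (Nat.pos_of_ne_zero hq)
    have h1 := op_translate ρ hf (lft e ![0, -b, 0]) (lft e ![0, b, 0])
    rw [← theta_eval he] at h1
    have h2 := LinearMap.congr_fun h1 m
    rw [op_apply, LinearMap.lTensor_comp] at h2
    exact h2) n
  rw [op_apply, LinearMap.lTensor_comp]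
  exact h


lemma mk_pow {q : ℕ} (x : H) (hx : counit (R := k) x = 0) :
    Ideal.Quotient.mkₐ k (frobIdeal k H q) x ^ q = 0 := by
  rw [← map_pow]
  exact Ideal.Quotient.eq_zero_iff_mem.2 (Ideal.subset_span ⟨x, hx, rfl⟩)

lemma comm_iA {q : ℕ} {e : MvPolynomial (Fin 3) k ≃ₐ[k] H} (he : IsHeis q e) (hq : q ≠ 0) :
    (Algebra.TensorProduct.map (iA e) (Ideal.Quotient.mkₐ k (frobIdeal k H q))).comp
        (Bialgebra.comulAlgHom k H) =
      ((Algebra.TensorProduct.comm k (H ⧸ frobIdeal k H q) (Polynomial k)).toAlgHom.comp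
        (Algebra.TensorProduct.map (Ideal.Quotient.mkₐ k (frobIdeal k H q)) (iA e))).comp
          (Bialgebra.comulAlgHom k H) := by
  apply hext e
  · simp [iA, lft_e, he.comul0, add_comm]
  · simp [iA, lft_e, he.comul1]
  · have h := mk_pow (q := q) (e (X 1)) (he.counit_x 1)
    rw [Ideal.Quotient.mkₐ_eq_mk] at h
    simp [iA, lft_e, he.comul2, h, hq]

lemma comm_mk {q : ℕ} {e : MvPolynomial (Fin 3) k ≃ₐ[k] H} (he : IsHeis q e) :
    (Algebra.TensorProduct.map (Ideal.Quotient.mkₐ k (frobIdeal k H q))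
        (Ideal.Quotient.mkₐ k (frobIdeal k H q))).comp (Bialgebra.comulAlgHom k H) =
      ((Algebra.TensorProduct.comm k (H ⧸ frobIdeal k H q) (H ⧸ frobIdeal k H q)).toAlgHom.comp
        (Algebra.TensorProduct.map (Ideal.Quotient.mkₐ k (frobIdeal k H q))
          (Ideal.Quotient.mkₐ k (frobIdeal k H q)))).comp (Bialgebra.comulAlgHom k H) := by
  apply hext e
  · simp [he.comul0, add_comm]
  · simp [he.comul1, add_comm]
  · have h := mk_pow (q := q) (e (X 1)) (he.counit_x 1)
    rw [Ideal.Quotient.mkₐ_eq_mk] at h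
    simp [he.comul2, h, add_comm]

lemma kills_of {q : ℕ} (f : H →ₗ[k] k)
    (hf : ∀ x y : H, counit (R := k) x = 0 → f (x ^ q * y) = 0) :
    ∀ x ∈ frobIdeal k H q, f x = 0 := by
  intro x hx
  have h : ∀ y, f (x * y) = 0 := by
    unfold frobIdeal at hx
    refine Submodule.span_induction (p := fun x _ => ∀ y, f (x * y) = 0) ?_ ?_ ?_ ?_ hx
    · rintro _ ⟨x, hx, rfl⟩ y
      exact hf x y hx
    · intro y
      rw [zero_mul, map_zero]
    · intro a b _ _ ha hb y
      rw [add_mul, map_add, ha, hb, add_zero]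
    · intro a b _ hb y
      rw [smul_eq_mul, mul_comm a b, mul_assoc]
      exact hb _
  simpa using h 1

variable (p r : ℕ) [Fact p.Prime] [CharP k p]

lemma mk_tensor_pow (z : H ⊗[k] Polynomial k) :
    Algebra.TensorProduct.map (Ideal.Quotient.mkₐ k (frobIdeal k H (p ^ r)))
      (AlgHom.id k (Polynomial k)) (z ^ (p ^ r)) =
    (1 : H ⧸ frobIdeal k H (p ^ r)) ⊗ₜ[k]
      (((Algebra.TensorProduct.lid k (Polynomial k)) (Algebra.TensorProduct.map
        (Bialgebra.counitAlgHom k H) (AlgHom.id k (Polynomial k)) z)) ^ (p ^ r)) := by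
  induction z with
  | zero =>
    have h : (p ^ r : ℕ) ≠ 0 := pow_ne_zero _ (Fact.out : p.Prime).ne_zero
    rw [zero_pow h, map_zero, map_zero, map_zero, zero_pow h, tmul_zero]
  | add x y hx hy =>
    rw [add_pow_q (F := k), map_add, hx, hy, map_add, map_add, add_pow_q (F := k), tmul_add]
  | tmul x y =>
    have h : Ideal.Quotient.mkₐ k (frobIdeal k H (p ^ r)) x ^ (p ^ r) =
        algebraMap k _ (counit (R := k) x ^ (p ^ r)) := by
      have h1 := mk_pow (k := k) (q := p ^ r) (x - algebraMap k H (counit (R := k) x)) (by simp)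
      rw [map_sub, sub_eq_add_neg, add_pow_q (F := k), neg_pow_q (F := k), ← sub_eq_add_neg,
        sub_eq_zero] at h1
      rw [h1, map_pow, AlgHom.commutes]
    rw [Algebra.TensorProduct.tmul_pow, Algebra.TensorProduct.map_tmul, map_pow, h]
    simp only [AlgHom.id_apply, Algebra.TensorProduct.map_tmul, Bialgebra.counitAlgHom_apply,
      Algebra.TensorProduct.lid_tmul]
    rw [Algebra.algebraMap_eq_smul_one, TensorProduct.smul_tmul, smul_pow]


lemma counit_DD {q : ℕ} {e : MvPolynomial (Fin 3) k ≃ₐ[k] H} (he : IsHeis q e) :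
    (Algebra.TensorProduct.lid k (Polynomial k)).toAlgHom.comp ((Algebra.TensorProduct.map
        (Bialgebra.counitAlgHom k H) (AlgHom.id k (Polynomial k))).comp (DD e)) =
      (Algebra.ofId k (Polynomial k)).comp (Bialgebra.counitAlgHom k H) := by
  apply hext e
  · simp [DD, lft_e, he.counit_x]
  · simp [DD, lft_e, he.counit_x]
  · simp [DD, lft_e, he.counit_x]

/-- The part of `f₁` coming from a functional of the kernel. -/
lemma kills_g {e : MvPolynomial (Fin 3) k ≃ₐ[k] H} (he : IsHeis (p ^ r) e)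
    (g : (H ⧸ frobIdeal k H (p ^ r)) →ₗ[k] k) (x y : H) (hx : counit (R := k) x = 0) :
    theta e (g ∘ₗ mkL _) (x ^ (p ^ r) * y) = 0 := by
  have h1 : ∀ z : H ⊗[k] Polynomial k, TensorProduct.lid k _ ((g ∘ₗ mkL _).rTensor _ z) =
      TensorProduct.lid k _ (g.rTensor _ (Algebra.TensorProduct.map
        (Ideal.Quotient.mkₐ k (frobIdeal k H (p ^ r))) (AlgHom.id k (Polynomial k)) z)) := by
    intro z
    induction z with
    | zero => simp
    | add x y hx hy => simp only [map_add, hx, hy]
    | tmul x y => simp [mkL]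
  have h2 := DFunLike.congr_fun (counit_DD he) x
  have h3 : (Algebra.TensorProduct.lid k (Polynomial k)) ((Algebra.TensorProduct.map
        (Bialgebra.counitAlgHom k H) (AlgHom.id k (Polynomial k))) (DD e x)) = 0 := by
    refine Eq.trans h2 ?_
    simp [hx]
  have h4 : (p ^ r : ℕ) ≠ 0 := pow_ne_zero _ (Fact.out : p.Prime).ne_zero
  rw [theta_apply, h1, map_mul, map_mul, map_pow, mk_tensor_pow, h3, zero_pow h4, tmul_zero,
    zero_mul, map_zero, map_zero]

/-- The functional `α_q ∘ D_{q-1}` is the coefficient of `A C^{q-1}`. -/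
lemma alpha_D (q : ℕ) (hq : 1 < q) (e : MvPolynomial (Fin 3) k ≃ₐ[k] H)
    (P : MvPolynomial (Fin 3) k) :
    (theta e (Polynomial.lcoeff k q ∘ₗ (iA e).toLinearMap) (e P)).coeff (q - 1) =
      coeff (Finsupp.single 0 1 + Finsupp.single 2 (q - 1)) P := by
  have h1 : ∀ z : H ⊗[k] Polynomial k, TensorProduct.lid k _
      ((Polynomial.lcoeff k q ∘ₗ (iA e).toLinearMap).rTensor _ z) =
      TensorProduct.lid k _ ((Polynomial.lcoeff k q).rTensor _ (Algebra.TensorProduct.map
        (iA e) (AlgHom.id k (Polynomial k)) z)) := by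
    intro z
    induction z with
    | zero => simp
    | add x y hx hy => simp only [map_add, hx, hy]
    | tmul x y => simp
  rw [theta_apply, h1]
  induction P using MvPolynomial.induction_on' with
  | add x y hx hy => 
    rw [map_add, map_add, map_add, map_add, map_add, Polynomial.coeff_add, hx, hy, coeff_add]
  | monomial u a =>
    have hJ : Algebra.TensorProduct.map (iA e) (AlgHom.id k (Polynomial k))
        (DD e (e (monomial u a))) = a • (((Polynomial.X ^ (u 0 + u 2)) * 0 ^ (u 1)) ⊗ₜ[k]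
          (Polynomial.X ^ (u 2))) := by
      rw [monomial_eq, Finsupp.prod_fintype _ _ (by simp), Fin.prod_univ_three]
      have hC : e (C a) = algebraMap k H a := e.commutes a
      have hJ0 : Algebra.TensorProduct.map (iA e) (AlgHom.id k (Polynomial k))
        (DD e (e (X 0))) = Polynomial.X ⊗ₜ[k] 1 := by
        simp [DD, lft_e, iA]
      have hJ1 : Algebra.TensorProduct.map (iA e) (AlgHom.id k (Polynomial k))
        (DD e (e (X 1))) = 0 := by
        simp [DD, lft_e, iA]
      have hJ2 : Algebra.TensorProduct.map (iA e) (AlgHom.id k (Polynomial k))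
        (DD e (e (X 2))) = Polynomial.X ⊗ₜ[k] Polynomial.X := by
        simp [DD, lft_e, iA]
      simp only [map_mul, map_pow, hC, hJ0, hJ1, hJ2, AlgHom.commutes,
        Algebra.TensorProduct.tmul_pow, one_pow]
      rw [Algebra.algebraMap_eq_smul_one, smul_mul_assoc, one_mul]
      congr 1
      by_cases h1 : u 1 = 0
      · simp [h1, pow_add]
      · simp [zero_pow h1]
    rw [hJ, coeff_monomial]
    have hu : (u = Finsupp.single 0 1 + Finsupp.single 2 (q - 1)) ↔
        (u 0 = 1 ∧ u 1 = 0 ∧ u 2 = q - 1) := by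
      constructor
      · rintro rfl
        simp
      · rintro ⟨h0, h1, h2⟩
        ext i
        fin_cases i
        · simp [h0]
        · simp [h1]
        · simp [h2]
    by_cases h1 : u 1 = 0
    · by_cases h2 : u 2 = q - 1
      · by_cases h0 : u 0 = 1
        · rw [if_pos (hu.2 ⟨h0, h1, h2⟩)]
          simp only [h0, h1, h2, pow_zero, mul_one, map_smul, LinearMap.rTensor_tmul,
            Polynomial.lcoeff_apply, TensorProduct.lid_tmul, Polynomial.coeff_X_pow]
          rw [if_pos (by omega)]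
          simp
        · rw [if_neg (fun h => h0 (hu.1 h).1)]
          simp only [h1, h2, pow_zero, mul_one, map_smul, LinearMap.rTensor_tmul,
            Polynomial.lcoeff_apply, TensorProduct.lid_tmul, Polynomial.coeff_X_pow]
          rw [if_neg (by omega)]
          simp
      · rw [if_neg (fun h => h2 (hu.1 h).2.2)]
        simp only [h1, pow_zero, mul_one, map_smul, LinearMap.rTensor_tmul,
            Polynomial.lcoeff_apply, TensorProduct.lid_tmul, Polynomial.coeff_smul,
            Polynomial.coeff_X_pow]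
        have h3 : (if q - 1 = u 2 then (1 : k) else 0) = 0 := if_neg (fun h => h2 h.symm)
        rw [h3]
        simp
    · rw [if_neg (fun h => h1 (hu.1 h).2.1)]
      simp [h1]


lemma f1_value (q : ℕ) (hq : 1 < q) (e : MvPolynomial (Fin 3) k ≃ₐ[k] H) (f : H →ₗ[k] k) :
    (theta e f (e (X 0) * e (X 2) ^ (q - 1))).coeff (q - 1) = f (e (X 0) ^ q) := by
  have h1 : ∀ z : H ⊗[k] Polynomial k, (TensorProduct.lid k _ (f.rTensor _ z)).coeff (q - 1) =
      f (TensorProduct.rid k H ((Polynomial.lcoeff k (q - 1)).lTensor H z)) := by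
    intro z
    induction z with
    | zero => simp
    | add x y hx hy => simp only [map_add, Polynomial.coeff_add, hx, hy]
    | tmul x y => simp [mul_comm]
  rw [theta_apply, h1]
  congr 1
  have hD : DD e (e (X 0) * e (X 2) ^ (q - 1)) = ∑ m ∈ Finset.range (q - 1 + 1),
      ((q - 1).choose m : k) • ((e (X 0) ^ (q - m) * e (X 2) ^ m) ⊗ₜ[k]
        (Polynomial.X ^ (q - 1 - m))) := by
    simp only [DD, map_mul, map_pow, lft_e]
    simp only [Matrix.cons_val]
    rw [add_pow, Finset.mul_sum]
    refine Finset.sum_congr rfl (fun m hm => ?_)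
    have hm' : m ≤ q - 1 := Nat.lt_succ_iff.1 (Finset.mem_range.1 hm)
    have hqm : q - m = (q - 1 - m) + 1 := by omega
    rw [hqm]
    simp only [Algebra.TensorProduct.tmul_pow, one_pow, Algebra.TensorProduct.tmul_mul_tmul,
      one_mul, pow_succ]
    rw [mul_comm _ ((Nat.choose (q - 1) m : H ⊗[k] Polynomial k)), ← mul_assoc,
      mul_comm _ ((Nat.choose (q - 1) m : H ⊗[k] Polynomial k)), mul_assoc,
      Algebra.TensorProduct.tmul_mul_tmul, one_mul, Nat.cast_smul_eq_nsmul, nsmul_eq_mul]
    congr 2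
    ring
  rw [hD, map_sum, map_sum, Finset.sum_eq_single 0]
  · simp
  · intro m hm hm0
    have hm' : m ≤ q - 1 := Nat.lt_succ_iff.1 (Finset.mem_range.1 hm)
    simp [Polynomial.coeff_X_pow]
    intro h
    omega
  · simp

/-- **No rational structure.** -/
theorem generic [IsAlgClosed k] (hr : 1 ≤ r) {e : MvPolynomial (Fin 3) k ≃ₐ[k] H}
    (he : IsHeis (p ^ r) e) (ρ : Comod k H M) : ¬ RestrictsToRegular (p ^ r) ρ := by
  intro hreg
  have hq : (p ^ r : ℕ) ≠ 0 := pow_ne_zero _ (Fact.out : p.Prime).ne_zero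
  have hq1 : 1 < p ^ r := Nat.one_lt_pow (by omega) (Fact.out : p.Prime).one_lt
  set q := p ^ r with hqdef
  obtain ⟨φ, hφ⟩ := hreg
  set α : H →ₗ[k] k := Polynomial.lcoeff k q ∘ₗ (iA e).toLinearMap with hα
  have hcomm : ∀ f g : (H ⧸ frobIdeal k H q) →ₗ[k] k,
      conv (f ∘ₗ mkL _) (g ∘ₗ mkL _) = conv (g ∘ₗ mkL _) (f ∘ₗ mkL _) :=
    fun f g => conv_comm_of _ _ (comm_mk he) f g
  have hcommα : ∀ g : (H ⧸ frobIdeal k H q) →ₗ[k] k,
      conv α (g ∘ₗ mkL _) = conv (g ∘ₗ mkL _) α :=
    fun g => conv_comm_of _ _ (comm_iA he hq) (Polynomial.lcoeff k q) g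
  obtain ⟨g, hg⟩ := centralizer φ hφ hq hcomm (op ρ α) (fun f m => by
    rw [← op_conv, ← op_conv, hcommα])
  set f₀ : H →ₗ[k] k := α - g ∘ₗ mkL _ with hf₀
  have hop : op ρ f₀ = 0 := by
    rw [hf₀, op_sub, hg, sub_self]
  have hop1 := op_theta he hq ρ hop (q - 1)
  have hkill : ∀ x ∈ frobIdeal k H q, (Polynomial.lcoeff k (q - 1) ∘ₗ theta e f₀) x = 0 := by
    apply kills_of
    intro x y hx
    rw [LinearMap.comp_apply, Polynomial.lcoeff_apply, hf₀, theta_sub,
      kills_g p r he g x y hx, sub_zero]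
    obtain ⟨P, rfl⟩ := e.surjective x
    obtain ⟨Q, rfl⟩ := e.surjective y
    rw [← map_pow, ← map_mul, alpha_D q hq1 e, coeff_pow_mul p r]
    · have h1 : counit (R := k) (e P) = constantCoeff P := by
        have : (Bialgebra.counitAlgHom k H).comp e.toAlgHom =
            (aeval (0 : Fin 3 → k)) := by
          refine MvPolynomial.algHom_ext (fun i => ?_)
          simp [he.counit_x]
        have h2 := DFunLike.congr_fun this P
        refine Eq.trans h2 ?_
        simp [MvPolynomial.aeval_zero]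
      rw [← h1, hx, zero_pow hq, zero_mul]
    · intro i
      fin_cases i
      · simp; omega
      · simp; omega
      · simp; omega
  let fbar : (H ⧸ frobIdeal k H q) →ₗ[k] k :=
    Submodule.liftQ ((frobIdeal k H q).restrictScalars k)
      (Polynomial.lcoeff k (q - 1) ∘ₗ theta e f₀) hkill
  have hfbar : fbar ∘ₗ mkL _ = Polynomial.lcoeff k (q - 1) ∘ₗ theta e f₀ := rfl
  have h1 := eps_phi_op φ hφ hq fbar (φ.symm (Ideal.Quotient.mk _ (e (X 0) * e (X 2) ^ (q - 1))))
    (e (X 0) * e (X 2) ^ (q - 1)) (by simp)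
  rw [hfbar, hop1, LinearMap.zero_apply, map_zero, map_zero] at h1
  have h2 : fbar (Ideal.Quotient.mk _ (e (X 0) * e (X 2) ^ (q - 1))) =
      (theta e f₀ (e (X 0) * e (X 2) ^ (q - 1))).coeff (q - 1) := rfl
  rw [h2, f1_value q hq1 e] at h1
  have h3 : mkL (k := k) (frobIdeal k H q) (e (X 0) ^ q) = 0 := by
    have := mk_pow (q := q) (e (X 0)) (he.counit_x 0)
    rw [← map_pow] at this
    exact this
  have h4 : α (e (X 0) ^ q) = 1 := by
    simp [hα, iA, lft_e]
  have hfin : f₀ (e (X 0) ^ q) = 1 := by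
    rw [hf₀, LinearMap.sub_apply, h4, LinearMap.comp_apply, h3, map_zero, sub_zero]
  rw [hfin] at h1
  exact zero_ne_one h1

end specific

section Heis

variable (F : Type u) [Field F] (p r : ℕ)

/-- The coordinate ring `F[A, B, C]` of the group, a copy of the polynomial ring in three
variables with its own comultiplication. -/
def Heis (F : Type u) [Field F] (_p _r : ℕ) : Type u := MvPolynomial (Fin 3) F

noncomputable instance : CommRing (Heis F p r) :=
  inferInstanceAs (CommRing (MvPolynomial (Fin 3) F))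

noncomputable instance : Algebra F (Heis F p r) :=
  inferInstanceAs (Algebra F (MvPolynomial (Fin 3) F))

/-- The coordinate functions. -/
noncomputable def Heis.x (i : Fin 3) : Heis F p r := (X i : MvPolynomial (Fin 3) F)

variable {F p r}

/-- Algebra maps out of `Heis`. -/
noncomputable def Heis.lift {S : Type*} [CommRing S] [Algebra F S] (f : Fin 3 → S) :
    Heis F p r →ₐ[F] S :=
  (MvPolynomial.aeval f : MvPolynomial (Fin 3) F →ₐ[F] S)

@[simp] lemma Heis.lift_x {S : Type*} [CommRing S] [Algebra F S] (f : Fin 3 → S) (i : Fin 3) :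
    Heis.lift f (Heis.x F p r i) = f i :=
  MvPolynomial.aeval_X f i

lemma Heis.hom_ext {S : Type*} [CommRing S] [Algebra F S] {f g : Heis F p r →ₐ[F] S}
    (h0 : f (Heis.x F p r 0) = g (Heis.x F p r 0))
    (h1 : f (Heis.x F p r 1) = g (Heis.x F p r 1))
    (h2 : f (Heis.x F p r 2) = g (Heis.x F p r 2)) : f = g := by
  refine MvPolynomial.algHom_ext (fun i => ?_)
  fin_cases i
  exacts [h0, h1, h2]

noncomputable instance instBialg [Fact p.Prime] [CharP F p] : Bialgebra F (Heis F p r) :=
  Bialgebra.ofAlgHom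
    (Heis.lift ![Heis.x F p r 0 ⊗ₜ 1 + 1 ⊗ₜ Heis.x F p r 0,
      Heis.x F p r 1 ⊗ₜ 1 + 1 ⊗ₜ Heis.x F p r 1,
      Heis.x F p r 2 ⊗ₜ 1 + 1 ⊗ₜ Heis.x F p r 2 + Heis.x F p r 0 ⊗ₜ (Heis.x F p r 1 ^ (p ^ r))])
    (Heis.lift ![0, 0, 0])
    (by
      apply Heis.hom_ext
      · simp [Algebra.TensorProduct.one_def, TensorProduct.add_tmul, TensorProduct.tmul_add,
          add_assoc]
      · simp [Algebra.TensorProduct.one_def, TensorProduct.add_tmul, TensorProduct.tmul_add,
          add_assoc]
      · simp only [AlgHom.comp_apply, Heis.lift_x]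
        simp [Algebra.TensorProduct.one_def, TensorProduct.add_tmul, TensorProduct.tmul_add,
          add_assoc, add_pow_q (F := F), Algebra.TensorProduct.tmul_pow]
        abel)
    (by
      apply Heis.hom_ext
      · simp 
      · simp
      · simp)
    (by
      have h : (p ^ r : ℕ) ≠ 0 := pow_ne_zero _ (Fact.out : p.Prime).ne_zero
      apply Heis.hom_ext
      · simp
      · simp
      · simp [zero_pow h])

variable [Fact p.Prime] [CharP F p]

lemma Heis.comul0 : comul (R := F) (Heis.x F p r 0) =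
    Heis.x F p r 0 ⊗ₜ 1 + 1 ⊗ₜ Heis.x F p r 0 :=
  Heis.lift_x _ 0

lemma Heis.comul1 : comul (R := F) (Heis.x F p r 1) =
    Heis.x F p r 1 ⊗ₜ 1 + 1 ⊗ₜ Heis.x F p r 1 :=
  Heis.lift_x _ 1

lemma Heis.comul2 : comul (R := F) (Heis.x F p r 2) =
    Heis.x F p r 2 ⊗ₜ 1 + 1 ⊗ₜ Heis.x F p r 2 + Heis.x F p r 0 ⊗ₜ (Heis.x F p r 1 ^ (p ^ r)) :=
  Heis.lift_x _ 2

lemma Heis.counit_x (i : Fin 3) : counit (R := F) (Heis.x F p r i) = 0 := by
  have h := Heis.lift_x (F := F) (p := p) (r := r) (![0, 0, 0] : Fin 3 → F) i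
  refine Eq.trans h ?_
  fin_cases i <;> rfl


/-- The antipode. -/
noncomputable def antip : Heis F p r →ₐ[F] Heis F p r :=
    (Heis.lift ![- Heis.x F p r 0, - Heis.x F p r 1,
      - Heis.x F p r 2 + Heis.x F p r 0 * Heis.x F p r 1 ^ (p ^ r)])

omit [Fact p.Prime] [CharP F p] in
lemma antip0 : antip (Heis.x F p r 0) = - Heis.x F p r 0 := Heis.lift_x _ 0
omit [Fact p.Prime] [CharP F p] in
lemma antip1 : antip (Heis.x F p r 1) = - Heis.x F p r 1 := Heis.lift_x _ 1
omit [Fact p.Prime] [CharP F p] in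
lemma antip2 : antip (Heis.x F p r 2) =
    - Heis.x F p r 2 + Heis.x F p r 0 * Heis.x F p r 1 ^ (p ^ r) :=
  Heis.lift_x _ 2

set_option backward.isDefEq.respectTransparency false in
noncomputable instance instHopf : HopfAlgebra F (Heis F p r) :=
  HopfAlgebra.ofAlgHom antip
    (by
      apply Heis.hom_ext
      · simp [Heis.comul0, Heis.counit_x, antip0]
      · simp [Heis.comul1, Heis.counit_x, antip1]
      · simp [Heis.comul2, Heis.counit_x, antip0, antip2])
    (by
      apply Heis.hom_ext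
      · simp [Heis.comul0, Heis.counit_x, antip0]
      · simp [Heis.comul1, Heis.counit_x, antip1]
      · simp [Heis.comul2, Heis.counit_x, neg_pow_q (F := F), antip1, antip2])

end Heis

section final

variable (F : Type u) (k : Type v) [Field F] [Field k] [Algebra F k] (p r : ℕ) [Fact p.Prime]
  [CharP F p]

/-- `k[U] = k ⊗ F[U]` is a polynomial ring in three variables. -/
noncomputable def eq3 : MvPolynomial (Fin 3) k ≃ₐ[k] k ⊗[F] Heis F p r :=
  (MvPolynomial.algebraTensorAlgEquiv (σ := Fin 3) F k).symm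

omit [Fact p.Prime] [CharP F p] in
lemma eq3_X (i : Fin 3) : eq3 F k p r (X i) = 1 ⊗ₜ Heis.x F p r i :=
  MvPolynomial.algebraTensorAlgEquiv_symm_X F k i

lemma isHeis_eq3 : IsHeis (k := k) (H := k ⊗[F] Heis F p r) (p ^ r) (eq3 F k p r) where
  counit_x i := by
    rw [eq3_X, TensorProduct.counit_tmul, Heis.counit_x]
    simp
  comul0 := by
    rw [eq3_X, TensorProduct.comul_tmul, Heis.comul0, Bialgebra.comul_one]
    simp only [Algebra.TensorProduct.one_def, tmul_add, map_add,
      TensorProduct.AlgebraTensorModule.tensorTensorTensorComm_tmul]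
  comul1 := by
    rw [eq3_X, TensorProduct.comul_tmul, Heis.comul1, Bialgebra.comul_one]
    simp only [Algebra.TensorProduct.one_def, tmul_add, map_add,
      TensorProduct.AlgebraTensorModule.tensorTensorTensorComm_tmul]
  comul2 := by
    rw [eq3_X, eq3_X, eq3_X, TensorProduct.comul_tmul, Heis.comul2, Bialgebra.comul_one]
    simp only [Algebra.TensorProduct.one_def, tmul_add, map_add,
      TensorProduct.AlgebraTensorModule.tensorTensorTensorComm_tmul,
      Algebra.TensorProduct.tmul_pow, one_pow]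


/-- An affine group scheme with coordinate ring `H` is unipotent: it is isomorphic to a closed
subgroup scheme of the group `U_n` of upper unitriangular `n × n` matrices for some `n`, i.e.
there is an upper unitriangular matrix `a` over `H` with `Δ (a i j) = ∑ l, a i l ⊗ a l j`, whose
entries generate the algebra `H`. -/
def IsUnipotent (F : Type u) (H : Type v) [Field F] [CommRing H] [Bialgebra F H] : Prop :=
  ∃ (n : ℕ) (a : Matrix (Fin n) (Fin n) H), (∀ i, a i i = 1) ∧ (∀ i j, j < i → a i j = 0) ∧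
    (∀ i j, comul (R := F) (a i j) = ∑ l, a i l ⊗ₜ[F] a l j) ∧
    Algebra.adjoin F (Set.range fun x : Fin n × Fin n => a x.1 x.2) = ⊤

lemma unip : IsUnipotent F (Heis F p r) := by
  refine ⟨5, !![1, Heis.x F p r 0, Heis.x F p r 2, 0, 0; 0, 1, Heis.x F p r 1 ^ (p ^ r), 0, 0;
    0, 0, 1, 0, 0; 0, 0, 0, 1, Heis.x F p r 1; 0, 0, 0, 0, 1], ?_, ?_, ?_, ?_⟩
  · intro i
    fin_cases i <;> rfl
  · intro i j hij
    fin_cases i <;> fin_cases j <;> first | rfl | (exact absurd hij (by decide))
  · intro i j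
    fin_cases i <;> fin_cases j <;>
      simp [Fin.sum_univ_five, Heis.comul0, Heis.comul1, Heis.comul2, Bialgebra.comul_one,
        Algebra.TensorProduct.one_def, add_pow_q (F := F), Algebra.TensorProduct.tmul_pow,
        Bialgebra.comul_pow] <;> abel
  · rw [eq_top_iff]
    have h : (⊤ : Subalgebra F (Heis F p r)) = Algebra.adjoin F (Set.range (Heis.x F p r)) :=
      (MvPolynomial.adjoin_range_X (R := F) (σ := Fin 3)).symm
    rw [h]
    apply Algebra.adjoin_mono
    rintro _ ⟨i, rfl⟩
    fin_cases i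
    · exact ⟨(0, 1), rfl⟩
    · exact ⟨(3, 4), rfl⟩
    · exact ⟨(0, 2), rfl⟩

end final

/-- **Main theorem.**  For every finite field `F` with `q = p ^ r` elements (`r ≥ 1`) and every
algebraically closed field `k` containing `F` there is a connected unipotent algebraic group `U`
defined over `F` (coordinate ring `H₀`) such that no rational `U`-module over `k` restricts to the
regular module `k[U_r]` of the Frobenius kernel `U_r`. -/
theorem result (p : ℕ) [Fact p.Prime] (r : ℕ) (hr : 1 ≤ r)
    (F : Type u) [Field F] [Fintype F] (hF : Fintype.card F = p ^ r)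
    (k : Type v) [Field k] [IsAlgClosed k] [Algebra F k] :
    ∃ (H₀ : Type u) (_ : CommRing H₀) (_ : HopfAlgebra F H₀),
      Algebra.FiniteType F H₀ ∧ IsDomain (k ⊗[F] H₀) ∧ IsUnipotent F H₀ ∧
      ∀ (M : Type w) [AddCommGroup M] [Module k M] (ρ : Comod k (k ⊗[F] H₀) M),
        ¬ RestrictsToRegular (p ^ r) ρ := by
  have : CharP F p := charP_of_card_eq_prime_pow hF
  have : CharP k p := charP_of_injective_algebraMap (algebraMap F k).injective p
  refine ⟨Heis F p r, inferInstance, inferInstance, ?_, ?_, ?_, ?_⟩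
  · exact inferInstanceAs (Algebra.FiniteType F (MvPolynomial (Fin 3) F))
  · exact (eq3 F k p r).symm.toMulEquiv.isDomain (MvPolynomial (Fin 3) k)
  · exact unip F p r
  · intro M _ _ ρ
    exact generic p r hr (isHeis_eq3 F k p r) ρ

end Pool.Agent.Results.MP_da3f29_al.NoStructure
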